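import Mathlib

/-!
# Interval maps that are Hölder for every exponent have metric mean dimension zero
-/

set_option autoImplicit false

open Filter Topology Set

namespace Pool.Agent.Results.MP_d02d3c_an.HolderAllZero

/-- The distance `d_n(x, y) = max_{0 ≤ k < n} |φ^k x - φ^k y|` (for `n ≥ 1`). -/
noncomputable def dN (φ : unitInterval → unitInterval) (n : ℕ) (x y : unitInterval) : ℝ :=
  ⨆ k : Fin n, |((φ^[k] x : unitInterval) : ℝ) - ((φ^[k] y : unitInterval) : ℝ)|

/-- `(n, ε)`-separated finite sets. -/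
def IsSeparated (φ : unitInterval → unitInterval) (n : ℕ) (ε : ℝ) (E : Finset unitInterval) : Prop :=
  ∀ x ∈ E, ∀ y ∈ E, x ≠ y → ε < dN φ n x y

/-- `s(n, ε)`: the supremum (in `ℕ ∪ {∞}`) of the cardinalities of the `(n, ε)`-separated sets. -/
noncomputable def sep (φ : unitInterval → unitInterval) (n : ℕ) (ε : ℝ) : ℕ∞ :=
  ⨆ (E : Finset unitInterval) (_ : IsSeparated φ n ε E), (E.card : ℕ∞)

/-- `h(φ, ε) = limsup_n (1/n) log s(n, ε)`. -/
noncomputable def entropy (φ : unitInterval → unitInterval) (ε : ℝ) : EReal :=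
  limsup (fun n : ℕ => ENNReal.log ((sep φ n ε : ℕ∞) : ENNReal) / ((n : ℝ) : EReal)) atTop

/-- The (upper) metric mean dimension `limsup_{ε → 0+} h(φ, ε) / |log ε|`. -/
noncomputable def mdim (φ : unitInterval → unitInterval) : EReal :=
  limsup (fun ε : ℝ => entropy φ ε / ((|Real.log ε| : ℝ) : EReal)) (𝓝[>] 0)

/-- `φ` is `α`-Hölder. -/
def IsHolder (φ : unitInterval → unitInterval) (α : ℝ) : Prop :=
  ∃ C : ℝ, 0 < C ∧ ∀ x y : unitInterval, |(φ x : ℝ) - φ y| ≤ C * |(x : ℝ) - y| ^ α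

/-! ### Coding -/

/-- The cell of a point. -/
noncomputable def code (N : ℕ) (x : unitInterval) : ℕ := ⌊(N : ℝ) * x⌋₊

/-- The itinerary. -/
noncomputable def word (φ : unitInterval → unitInterval) (N : ℕ) : ℕ → unitInterval → List ℕ
  | 0, _ => []
  | n + 1, x => code N x :: word φ N n (φ x)

lemma code_le (N : ℕ) (x : unitInterval) : code N x ≤ N := by
  unfold code
  have : (N : ℝ) * x ≤ N := by
    have h1 := x.2.2
    have h2 : (0 : ℝ) ≤ N := Nat.cast_nonneg N
    nlinarith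
  exact Nat.floor_le_of_le (by simpa using this)

lemma code_eq_dist {N : ℕ} (hN : 0 < N) {x y : unitInterval} (h : code N x = code N y) :
    |(x : ℝ) - y| < 1 / N := by
  unfold code at h
  have hN' : (0 : ℝ) < N := by exact_mod_cast hN
  have hx0 : 0 ≤ (N : ℝ) * x := mul_nonneg hN'.le x.2.1
  have hy0 : 0 ≤ (N : ℝ) * y := mul_nonneg hN'.le y.2.1
  have h1 := Nat.floor_le hx0
  have h2 := Nat.lt_floor_add_one ((N : ℝ) * x)
  have h3 := Nat.floor_le hy0
  have h4 := Nat.lt_floor_add_one ((N : ℝ) * y)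
  rw [h] at h1 h2
  have h5 : (N : ℝ) * |(x : ℝ) - y| < 1 := by
    rw [← abs_of_pos hN', ← abs_mul, abs_lt]
    constructor <;> nlinarith
  rw [lt_div_iff₀ hN']
  linarith

lemma word_eq {φ : unitInterval → unitInterval} {N : ℕ} : ∀ {n : ℕ} {x y : unitInterval},
    word φ N n x = word φ N n y → ∀ k < n, code N (φ^[k] x) = code N (φ^[k] y)
  | 0, _, _, _, k, hk => absurd hk (Nat.not_lt_zero k)
  | n + 1, x, y, h, k, hk => by
    simp only [word, List.cons.injEq] at h
    rcases k with _ | k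
    · exact h.1
    · simpa only [Function.iterate_succ, Function.comp] using word_eq h.2 k (by omega)

lemma succ_card {φ : unitInterval → unitInterval} {α C : ℝ} (hα : 0 < α) (hC : 0 < C)
    (h : ∀ x y : unitInterval, |(φ x : ℝ) - φ y| ≤ C * |(x : ℝ) - y| ^ α) {N : ℕ} (hN : 0 < N)
    (j : ℕ) : ∃ S : Finset ℕ, S.card ≤ ⌊C * (N : ℝ) ^ (1 - α)⌋₊ + 2 ∧
      ∀ x, code N x = j → code N (φ x) ∈ S := by
  classical
  by_cases he : ∃ x, code N x = j
  · have hN' : (0 : ℝ) < N := by exact_mod_cast hN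
    let P : ℕ → Prop := fun m => ∃ x, code N x = j ∧ code N (φ x) = m
    have hP : ∃ m, P m := by
      obtain ⟨x, hx⟩ := he
      exact ⟨_, x, hx, rfl⟩
    obtain ⟨x0, hx0, hm⟩ := Nat.find_spec hP
    set m := Nat.find hP with hmdef
    refine ⟨Finset.Icc m (m + (⌊C * (N : ℝ) ^ (1 - α)⌋₊ + 1)), ?_, ?_⟩
    · rw [Nat.card_Icc]; omega
    · intro x hx
      rw [Finset.mem_Icc]
      refine ⟨Nat.find_min' hP ⟨x, hx, rfl⟩, ?_⟩
      have h1 : |(x : ℝ) - x0| < 1 / N := code_eq_dist hN (hx.trans hx0.symm)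
      have h2 : |(φ x : ℝ) - φ x0| ≤ C * (1 / N : ℝ) ^ α := by
        refine (h x x0).trans ?_
        gcongr
      have h3 : (N : ℝ) * |(φ x : ℝ) - φ x0| ≤ C * (N : ℝ) ^ (1 - α) := by
        have e1 : (N : ℝ) * (C * (1 / N : ℝ) ^ α) = C * (N : ℝ) ^ (1 - α) := by
          rw [one_div, Real.inv_rpow hN'.le, Real.rpow_sub hN', Real.rpow_one]
          field_simp
        calc (N : ℝ) * |(φ x : ℝ) - φ x0| ≤ N * (C * (1 / N : ℝ) ^ α) := by gcongr
          _ = _ := e1
      have h4 : (N : ℝ) * φ x ≤ (N : ℝ) * φ x0 + C * (N : ℝ) ^ (1 - α) := by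
        have := le_abs_self ((φ x : ℝ) - φ x0)
        nlinarith
      have h5 := Nat.lt_floor_add_one ((N : ℝ) * φ x0)
      have h6 := Nat.lt_floor_add_one (C * (N : ℝ) ^ (1 - α))
      have h7 : ((⌊(N : ℝ) * φ x⌋₊ : ℕ) : ℝ) ≤ (N : ℝ) * φ x :=
        Nat.floor_le (mul_nonneg hN'.le (φ x).2.1)
      have h8 : (code N (φ x) : ℝ) < (m : ℝ) + ((⌊C * (N : ℝ) ^ (1 - α)⌋₊ : ℕ) : ℝ) + 2 := by
        have : (m : ℝ) = ((⌊(N : ℝ) * φ x0⌋₊ : ℕ) : ℝ) := by
          rw [← hm]; rfl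
        unfold code
        linarith
      have h9 : code N (φ x) < m + ⌊C * (N : ℝ) ^ (1 - α)⌋₊ + 2 := by exact_mod_cast h8
      omega
  · refine ⟨∅, by simp, fun x hx => absurd ⟨x, hx⟩ he⟩

lemma words_card {φ : unitInterval → unitInterval} {N K : ℕ}
    (h : ∀ j, ∃ S : Finset ℕ, S.card ≤ K ∧ ∀ x, code N x = j → code N (φ x) ∈ S) :
    ∀ (n : ℕ) (j : ℕ), ∃ W : Finset (List ℕ), W.card ≤ K ^ n ∧
      ∀ x, code N x = j → word φ N (n + 1) x ∈ W := by
  classical
  intro n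
  induction n with
  | zero =>
    intro j
    refine ⟨{[j]}, by simp, fun x hx => ?_⟩
    simp [word, hx]
  | succ n ih =>
    intro j
    obtain ⟨S, hS, hS'⟩ := h j
    choose W hW hW' using ih
    refine ⟨S.biUnion fun i => (W i).image (fun w => j :: w), ?_, ?_⟩
    · calc (S.biUnion fun i => (W i).image (fun w => j :: w)).card
          ≤ ∑ i ∈ S, ((W i).image (fun w => j :: w)).card := Finset.card_biUnion_le
        _ ≤ ∑ i ∈ S, K ^ n := Finset.sum_le_sum fun i _ => Finset.card_image_le.trans (hW i)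
        _ = S.card * K ^ n := by simp
        _ ≤ K * K ^ n := by gcongr
        _ = K ^ (n + 1) := by ring
    · intro x hx
      rw [Finset.mem_biUnion]
      refine ⟨code N (φ x), hS' x hx, ?_⟩
      rw [Finset.mem_image]
      refine ⟨word φ N (n + 1) (φ x), hW' _ _ rfl, ?_⟩
      rw [← hx]; rfl

lemma sep_le {φ : unitInterval → unitInterval} {N K : ℕ} (hN : 0 < N)
    (h : ∀ j, ∃ S : Finset ℕ, S.card ≤ K ∧ ∀ x, code N x = j → code N (φ x) ∈ S)
    {ε : ℝ} (hε : 1 / (N : ℝ) ≤ ε) (n : ℕ) :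
    sep φ (n + 1) ε ≤ ((N + 1) * K ^ n : ℕ) := by
  classical
  unfold sep
  refine iSup₂_le fun E hE => ?_
  choose W hW hW' using words_card h n
  norm_cast
  have hinj : Set.InjOn (word φ N (n + 1)) (E : Set unitInterval) := by
    intro x hx y hy hxy
    by_contra hne
    have h1 := hE x hx y hy hne
    have h2 : dN φ (n + 1) x y ≤ ε := by
      unfold dN
      refine ciSup_le fun k => ?_
      exact (code_eq_dist hN (word_eq hxy k k.2)).le.trans hε
    linarith
  have hsub : E.image (word φ N (n + 1)) ⊆ (Finset.range (N + 1)).biUnion W := by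
    intro w hw
    rw [Finset.mem_image] at hw
    obtain ⟨x, -, rfl⟩ := hw
    rw [Finset.mem_biUnion]
    exact ⟨code N x, Finset.mem_range.2 (Nat.lt_succ_of_le (code_le N x)), hW' _ _ rfl⟩
  calc E.card = (E.image (word φ N (n + 1))).card := (Finset.card_image_of_injOn hinj).symm
    _ ≤ ((Finset.range (N + 1)).biUnion W).card := Finset.card_le_card hsub
    _ ≤ ∑ j ∈ Finset.range (N + 1), (W j).card := Finset.card_biUnion_le
    _ ≤ ∑ j ∈ Finset.range (N + 1), K ^ n := Finset.sum_le_sum fun j _ => hW j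
    _ = (N + 1) * K ^ n := by simp

lemma one_le_sep (φ : unitInterval → unitInterval) (n : ℕ) (ε : ℝ) : 1 ≤ sep φ n ε := by
  unfold sep
  refine le_trans ?_ (le_iSup₂ (f := fun (E : Finset unitInterval) (_ : IsSeparated φ n ε E) =>
    (E.card : ℕ∞)) {0} ?_)
  · simp
  · intro x hx y hy hxy
    rw [Finset.mem_singleton] at hx hy
    exact absurd (hx.trans hy.symm) hxy

lemma entropy_nonneg (φ : unitInterval → unitInterval) (ε : ℝ) : 0 ≤ entropy φ ε := by
  unfold entropy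
  refine le_limsup_of_frequently_le (Eventually.frequently ?_)
  refine Eventually.of_forall fun n => ?_
  refine EReal.div_nonneg ?_ ?_
  · rw [← ENNReal.log_one]
    refine ENNReal.log_monotone ?_
    exact_mod_cast one_le_sep φ n ε
  · exact_mod_cast Nat.cast_nonneg n

lemma entropy_le {φ : unitInterval → unitInterval} {N K : ℕ} (hN : 0 < N) (hK : 0 < K)
    (h : ∀ j, ∃ S : Finset ℕ, S.card ≤ K ∧ ∀ x, code N x = j → code N (φ x) ∈ S)
    {ε : ℝ} (hε : 1 / (N : ℝ) ≤ ε) : entropy φ ε ≤ ((Real.log K : ℝ) : EReal) := by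
  unfold entropy
  have hlim : Tendsto (fun n : ℕ => (((Real.log (N + 1) + n * Real.log K) / n : ℝ) : EReal)) atTop
      (𝓝 ((Real.log K : ℝ) : EReal)) := by
    rw [EReal.tendsto_coe]
    have h1 : Tendsto (fun n : ℕ => Real.log (N + 1) / (n : ℝ) + Real.log K) atTop
        (𝓝 (0 + Real.log K)) :=
      (tendsto_const_div_atTop_nhds_zero_nat _).add tendsto_const_nhds
    rw [zero_add] at h1
    refine h1.congr' ?_
    filter_upwards [eventually_gt_atTop 0] with n hn
    have : (n : ℝ) ≠ 0 := by exact_mod_cast hn.ne'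
    field_simp
  rw [← hlim.limsup_eq]
  refine limsup_le_limsup ?_
  filter_upwards [eventually_gt_atTop 0] with n hn
  obtain ⟨m, rfl⟩ : ∃ m, n = m + 1 := ⟨n - 1, by omega⟩
  have hn' : (0 : ℝ) < ((m + 1 : ℕ) : ℝ) := by positivity
  rw [EReal.coe_div]
  refine EReal.div_le_div_right_of_nonneg (by exact_mod_cast hn'.le) ?_
  have hK' : (1 : ℝ) ≤ K := by exact_mod_cast hK
  have h1 : (((sep φ (m + 1) ε : ℕ∞) : ENNReal)) ≤ ENNReal.ofReal (((N + 1) * K ^ (m + 1) : ℕ) : ℝ) := by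
    rw [ENNReal.ofReal_natCast]
    have h2 := sep_le hN h hε m
    have h3 : ((((N + 1) * K ^ m : ℕ) : ℕ∞)) ≤ (((N + 1) * K ^ (m + 1) : ℕ) : ℕ∞) := by
      refine Nat.cast_le.2 (Nat.mul_le_mul_left _ (Nat.pow_le_pow_right hK (Nat.le_succ _)))
    have h4 := h2.trans h3
    exact_mod_cast ENat.toENNReal_le.2 h4
  refine (ENNReal.log_monotone h1).trans ?_
  rw [ENNReal.log_ofReal_of_pos (by positivity)]
  refine EReal.coe_le_coe_iff.2 ?_
  push_cast
  rw [Real.log_mul (by positivity) (by positivity), Real.log_pow]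
  push_cast
  exact le_refl _

lemma mdim_le {φ : unitInterval → unitInterval} {α : ℝ} (hα : 0 < α) (hα1 : α < 1)
    (h : IsHolder φ α) : mdim φ ≤ ((1 - α : ℝ) : EReal) := by
  obtain ⟨C, hC, h⟩ := h
  unfold mdim
  set C' : ℝ := C * 2 ^ (1 - α) + 2 with hC'
  have hC'0 : 0 < C' := by positivity
  have hlim : Tendsto (fun ε : ℝ => (((Real.log C' + (1 - α) * |Real.log ε|) / |Real.log ε| : ℝ) : EReal))
      (𝓝[>] 0) (𝓝 ((1 - α : ℝ) : EReal)) := by
    rw [EReal.tendsto_coe]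
    have h0 : Tendsto (fun ε : ℝ => |Real.log ε|) (𝓝[>] 0) atTop :=
      tendsto_abs_atBot_atTop.comp Real.tendsto_log_nhdsGT_zero
    have h1 : Tendsto (fun ε : ℝ => Real.log C' / |Real.log ε| + (1 - α)) (𝓝[>] 0)
        (𝓝 (0 + (1 - α))) :=
      (h0.const_div_atTop _).add tendsto_const_nhds
    rw [zero_add] at h1
    refine h1.congr' ?_
    filter_upwards [h0.eventually_gt_atTop 0] with ε hε
    field_simp
  rw [← hlim.limsup_eq]
  refine limsup_le_limsup ?_
  have hev : ∀ᶠ ε : ℝ in 𝓝[>] 0, 0 < ε ∧ ε < 1 :=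
    (Ioo_mem_nhdsGT zero_lt_one)
  filter_upwards [hev] with ε hε
  rw [EReal.coe_div]
  refine EReal.div_le_div_right_of_nonneg (by exact_mod_cast abs_nonneg _) ?_
  set N : ℕ := ⌈1 / ε⌉₊ with hNdef
  have hN : 0 < N := Nat.ceil_pos.2 (by have := hε.1; positivity)
  have hN' : (0 : ℝ) < N := by exact_mod_cast hN
  have hNε : 1 / (N : ℝ) ≤ ε := by
    rw [div_le_iff₀ hN', ← div_le_iff₀' hε.1]
    exact Nat.le_ceil _
  have hN2 : (N : ℝ) ≤ 2 / ε := by
    have h1 : (N : ℝ) < 1 / ε + 1 := Nat.ceil_lt_add_one (by have := hε.1; positivity)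
    have h2 : 1 ≤ 1 / ε := by rw [le_div_iff₀ hε.1]; linarith [hε.2]
    have h3 : 2 / ε = 1 / ε + 1 / ε := by ring
    linarith
  refine (entropy_le hN (K := ⌊C * (N : ℝ) ^ (1 - α)⌋₊ + 2) (by omega)
    (succ_card hα hC h hN) hNε).trans ?_
  refine EReal.coe_le_coe_iff.2 ?_
  have h1α : 0 < 1 - α := by linarith
  have h1 : (((⌊C * (N : ℝ) ^ (1 - α)⌋₊ + 2 : ℕ) : ℝ)) ≤ C' * (1 / ε) ^ (1 - α) := by
    push_cast
    have h2 : ((⌊C * (N : ℝ) ^ (1 - α)⌋₊ : ℕ) : ℝ) ≤ C * (N : ℝ) ^ (1 - α) :=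
      Nat.floor_le (by positivity)
    have h3 : (N : ℝ) ^ (1 - α) ≤ (2 / ε) ^ (1 - α) := by gcongr
    have h4 : (2 / ε : ℝ) ^ (1 - α) = 2 ^ (1 - α) * (1 / ε) ^ (1 - α) := by
      rw [← Real.mul_rpow (by norm_num) (by have := hε.1; positivity)]
      congr 1; ring
    have h5 : (1 : ℝ) ≤ (1 / ε) ^ (1 - α) := by
      refine Real.one_le_rpow ?_ h1α.le
      rw [le_div_iff₀ hε.1]; linarith [hε.2]
    rw [h4] at h3
    have h6 : C * (N : ℝ) ^ (1 - α) ≤ C * (2 ^ (1 - α) * (1 / ε) ^ (1 - α)) := by gcongr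
    rw [hC']
    nlinarith
  have hpos : (0 : ℝ) < ((⌊C * (N : ℝ) ^ (1 - α)⌋₊ + 2 : ℕ) : ℝ) := by positivity
  refine (Real.log_le_log hpos h1).trans ?_
  have hε0 := hε.1
  rw [Real.log_mul hC'0.ne' (by positivity), Real.log_rpow (by positivity), one_div, Real.log_inv,
    abs_of_neg (Real.log_neg hε.1 hε.2)]

/-- If `φ : [0, 1] → [0, 1]` is `α`-Hölder continuous for every `α ∈ (0, 1)` then its upper metric
mean dimension for the usual metric is zero. -/
theorem result : ∀ φ : unitInterval → unitInterval,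
    (∀ α : ℝ, 0 < α → α < 1 → IsHolder φ α) → mdim φ = 0 := by
  intro φ h
  refine le_antisymm ?_ ?_
  · refine le_of_forall_gt_imp_ge_of_dense fun b hb => ?_
    by_cases hb1 : 1 ≤ b
    · refine (mdim_le (by norm_num : (0 : ℝ) < 1 / 2) (by norm_num) (h _ (by norm_num) (by norm_num))).trans
        (le_trans ?_ hb1)
      exact_mod_cast (by norm_num : (1 : ℝ) - 1 / 2 ≤ 1)
    · push Not at hb1
      obtain ⟨c, rfl⟩ : ∃ c : ℝ, (c : EReal) = b := by
        refine ⟨b.toReal, EReal.coe_toReal (ne_top_of_lt hb1) (ne_bot_of_gt hb)⟩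
      have h0 : 0 < c := by exact_mod_cast hb
      have h1 : c < 1 := by exact_mod_cast hb1
      have := mdim_le (α := 1 - c) (by linarith) (by linarith) (h _ (by linarith) (by linarith))
      simpa using this
  · unfold mdim
    refine le_limsup_of_frequently_le (Eventually.frequently ?_)
    refine Eventually.of_forall fun ε => ?_
    exact EReal.div_nonneg (entropy_nonneg φ ε) (by exact_mod_cast abs_nonneg _)

end Pool.Agent.Results.MP_d02d3c_an.HolderAllZero
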